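import Mathlib

/-! Outer automorphism groups, residual finiteness, inner automorphism separability. -/

namespace Q24.IAS

/-- `G` is residually finite: every non-trivial element survives in some finite group. -/
def ResiduallyFin (G : Type) [Group G] : Prop :=
  ∀ g : G, g ≠ 1 → ∃ (F : Type) (_ : Group F) (_ : Finite F) (f : G →* F), f g ≠ 1

/-- The group of inner automorphisms of `G`. -/
def Inn (G : Type) [Group G] : Subgroup (MulAut G) := (MulAut.conj : G →* MulAut G).range

instance Inn_normal (G : Type) [Group G] : (Inn G).Normal := ⟨by
  rintro _ ⟨g, rfl⟩ φ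
  refine ⟨φ g, ?_⟩
  ext x
  simp⟩

/-- The outer automorphism group `Out G = Aut G / Inn G`. -/
abbrev Out (G : Type) [Group G] : Type := MulAut G ⧸ Inn G

/-- For a characteristic subgroup `K`, the map `Aut G → Aut (G/K)`, `ψ ↦ (g K ↦ ψ(g) K)`. -/
def indAut {G : Type} [Group G] (K : Subgroup G) [K.Characteristic] : MulAut G →* MulAut (G ⧸ K) where
  toFun ψ := QuotientGroup.congr K K ψ (Subgroup.characteristic_iff_map_eq.mp inferInstance ψ)
  map_one' := by
    ext x
    induction x using QuotientGroup.induction_on with
    | H x => rfl
  map_mul' ψ φ := by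
    ext x
    induction x using QuotientGroup.induction_on with
    | H x => rfl

/-- `G` is inner automorphism separable (IAS): every non-inner automorphism of `G` induces a
non-inner automorphism of `G/K` for some characteristic subgroup `K` of finite index. -/
def InnerAutSep (G : Type) [Group G] : Prop :=
  ∀ ψ : MulAut G, ψ ∉ Inn G →
    ∃ (K : Subgroup G) (_ : K.Characteristic), K.FiniteIndex ∧ indAut K ψ ∉ Inn (G ⧸ K)

end Q24.IAS
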