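import Mathlib

/-! A diagonal product of the wreath products of `H` with `ℤ/2^i`. -/

namespace Q24.IAS

/-- Elements: a lamp configuration on every `ℤ/2^i` and a shift. -/
@[ext] structure W (H : Type) where
  lamp : ∀ i : ℕ, ZMod (2 ^ i) → H
  sh : ℤ

variable {H : Type} [Group H]

instance : Mul (W H) :=
  ⟨fun a b => ⟨fun i x => a.lamp i x * b.lamp i (x - a.sh), a.sh + b.sh⟩⟩
instance : One (W H) := ⟨⟨fun _ _ => 1, 0⟩⟩
instance : Inv (W H) := ⟨fun a => ⟨fun i x => (a.lamp i (x + a.sh))⁻¹, -a.sh⟩⟩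

@[simp] lemma mul_lamp (a b : W H) (i : ℕ) (x : ZMod (2 ^ i)) :
    (a * b).lamp i x = a.lamp i x * b.lamp i (x - a.sh) := rfl
@[simp] lemma mul_sh (a b : W H) : (a * b).sh = a.sh + b.sh := rfl
@[simp] lemma one_lamp (i : ℕ) (x : ZMod (2 ^ i)) : (1 : W H).lamp i x = 1 := rfl
@[simp] lemma one_sh : (1 : W H).sh = 0 := rfl
@[simp] lemma inv_lamp (a : W H) (i : ℕ) (x : ZMod (2 ^ i)) :
    (a⁻¹).lamp i x = (a.lamp i (x + a.sh))⁻¹ := rfl
@[simp] lemma inv_sh (a : W H) : (a⁻¹).sh = -a.sh := rfl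

lemma W.ext' {a b : W H} (h1 : ∀ i x, a.lamp i x = b.lamp i x) (h2 : a.sh = b.sh) : a = b :=
  W.ext (funext fun i => funext fun x => h1 i x) h2

instance : Group (W H) :=
  Group.ofLeftAxioms
    (fun a b c => W.ext' (fun i x => by
      simp only [mul_lamp, mul_sh, Int.cast_add, mul_assoc, sub_sub]) (by simp [add_assoc]))
    (fun a => W.ext' (fun i x => by simp) (by simp))
    (fun a => W.ext' (fun i x => by simp) (by simp))

lemma cast_two_pow (i : ℕ) : ((2 ^ i : ℤ) : ZMod (2 ^ i)) = 0 := by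
  exact_mod_cast ZMod.natCast_self (2 ^ i)

lemma exists_rep (i : ℕ) (y : ZMod (2 ^ i)) : ∃ z : ℤ, 2 * |z| ≤ 2 ^ i ∧ (z : ZMod (2 ^ i)) = y := by
  refine ⟨y.valMinAbs, ?_, y.coe_valMinAbs⟩
  have h := y.valMinAbs_mem_Ioc
  rw [Set.mem_Ioc] at h
  push_cast at h
  rcases abs_cases y.valMinAbs with h1 | h1 <;> omega

lemma cast_ne {i : ℕ} {z w : ℤ} (hne : z ≠ w) (h : |z - w| < 2 ^ i) :
    (z : ZMod (2 ^ i)) ≠ (w : ZMod (2 ^ i)) := by
  intro heq
  have h1 : ((z - w : ℤ) : ZMod (2 ^ i)) = 0 := by rw [Int.cast_sub, heq, sub_self]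
  rw [ZMod.intCast_zmod_eq_zero_iff_dvd] at h1
  have h2 := Int.eq_zero_of_abs_lt_dvd h1 (by push_cast; exact h)
  exact hne (by omega)

lemma lt_two_pow_self' (n : ℕ) : (n : ℤ) < 2 ^ n := by exact_mod_cast Nat.lt_two_pow_self

lemma two_pow_mono {a b : ℕ} (h : a ≤ b) : (2 : ℤ) ^ a ≤ 2 ^ b :=
  pow_le_pow_right₀ (by norm_num) h

/-- eventually, the configuration is a fixed finitely supported configuration on `ℤ` -/
def EvLoc (f : ∀ i : ℕ, ZMod (2 ^ i) → H) : Prop :=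
  ∃ (F : ℤ → H) (r m : ℕ), (∀ z : ℤ, (r : ℤ) < |z| → F z = 1) ∧
    ∀ i, m ≤ i → ∀ z : ℤ, 2 * |z| ≤ 2 ^ i → f i (z : ZMod (2 ^ i)) = F z

lemma EvLoc.shift {f : ∀ i : ℕ, ZMod (2 ^ i) → H} (hf : EvLoc f) (k : ℤ) :
    EvLoc fun i x => f i (x - k) := by
  obtain ⟨F, r, m, hF, hm⟩ := hf
  refine ⟨fun z => F (z - k), r + k.natAbs, m + 2 * (r + k.natAbs) + 1, fun z hz => hF _ ?_,
    fun i hi z hz => ?_⟩
  · push_cast at hz
    have := abs_sub_abs_le_abs_sub z k
    omega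
  · have h1 := two_pow_mono hi
    have h2 := lt_two_pow_self' (m + 2 * (r + k.natAbs) + 1)
    push_cast at h2
    have h3 : ((z : ZMod (2 ^ i)) - (k : ZMod (2 ^ i))) = ((z - k : ℤ) : ZMod (2 ^ i)) := by
      push_cast; rfl
    dsimp only
    rw [h3]
    have hc := cast_two_pow i
    have hzk : |z - k| ≤ |z| + |k| := abs_sub z k
    by_cases h4 : 2 * |z - k| ≤ 2 ^ i
    · exact hm i (by omega) _ h4
    · have hbig : (r : ℤ) < |z - k| := by omega
      rw [hF _ hbig]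
      rcases abs_cases (z - k) with h5 | h5
      · have h6 : ((z - k : ℤ) : ZMod (2 ^ i)) = ((z - k - 2 ^ i : ℤ) : ZMod (2 ^ i)) := by
          rw [Int.cast_sub (z - k) (2 ^ i), hc, sub_zero]
        have h7 : |z - k - 2 ^ i| = 2 ^ i - (z - k) := by
          rw [abs_of_nonpos (by omega)]; ring
        rw [h6, hm i (by omega) _ (by omega)]
        exact hF _ (by omega)
      · have h6 : ((z - k : ℤ) : ZMod (2 ^ i)) = ((z - k + 2 ^ i : ℤ) : ZMod (2 ^ i)) := by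
          rw [Int.cast_add (z - k) (2 ^ i), hc, add_zero]
        have h7 : |z - k + 2 ^ i| = 2 ^ i + (z - k) := by
          rw [abs_of_nonneg (by omega)]; ring
        rw [h6, hm i (by omega) _ (by omega)]
        exact hF _ (by omega)

lemma EvLoc.mul {f g : ∀ i : ℕ, ZMod (2 ^ i) → H} (hf : EvLoc f) (hg : EvLoc g) :
    EvLoc fun i x => f i x * g i x := by
  obtain ⟨F, r, m, hF, hm⟩ := hf
  obtain ⟨G, s, n, hG, hn⟩ := hg
  refine ⟨fun z => F z * G z, max r s, max m n, fun z hz => ?_, fun i hi z hz => ?_⟩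
  · push_cast at hz
    dsimp only
    rw [hF z ((le_max_left _ _).trans_lt hz), hG z ((le_max_right _ _).trans_lt hz), mul_one]
  · dsimp only
    rw [hm i ((le_max_left _ _).trans hi) z hz, hn i ((le_max_right _ _).trans hi) z hz]

lemma EvLoc.inv {f : ∀ i : ℕ, ZMod (2 ^ i) → H} (hf : EvLoc f) :
    EvLoc fun i x => (f i x)⁻¹ := by
  obtain ⟨F, r, m, hF, hm⟩ := hf
  refine ⟨fun z => (F z)⁻¹, r, m, fun z hz => ?_, fun i hi z hz => ?_⟩
  · dsimp only
    rw [hF z hz, inv_one]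
  · dsimp only
    rw [hm i hi z hz]

lemma evLoc_one : EvLoc fun (i : ℕ) (_ : ZMod (2 ^ i)) => (1 : H) :=
  ⟨fun _ => 1, 0, 0, fun _ _ => rfl, fun _ _ _ _ => rfl⟩

lemma evLoc_of_finite {f : ∀ i : ℕ, ZMod (2 ^ i) → H} (m : ℕ) (h : ∀ i, m ≤ i → ∀ x, f i x = 1) :
    EvLoc f :=
  ⟨fun _ => 1, 0, m, fun _ _ => rfl, fun i hi _ _ => h i hi _⟩

variable (H)

/-- the group `G` -/
def E : Subgroup (W H) where
  carrier := {a | EvLoc a.lamp}
  mul_mem' {a b} ha hb := EvLoc.mul ha (EvLoc.shift hb a.sh)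
  one_mem' := evLoc_one
  inv_mem' {a} ha := by
    have h1 := (EvLoc.shift ha (-a.sh)).inv
    refine (congrArg EvLoc ?_).mp h1
    funext i x
    simp

variable {H}

lemma mem_E {a : W H} : a ∈ E H ↔ EvLoc a.lamp := Iff.rfl

/-- the shift -/
def sg (k : ℤ) : E H := ⟨⟨fun _ _ => 1, k⟩, evLoc_one⟩

/-- local elements -/
def iota (i : ℕ) : (ZMod (2 ^ i) → H) →* E H where
  toFun g := ⟨⟨Pi.mulSingle (M := fun i => ZMod (2 ^ i) → H) i g, 0⟩, evLoc_of_finite (i + 1) fun j hj x => by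
    change Pi.mulSingle (M := fun i => ZMod (2 ^ i) → H) i g j x = 1
    rw [Pi.mulSingle_eq_of_ne (by omega)]; rfl⟩
  map_one' := by
    apply Subtype.ext
    apply W.ext'
    · intro j x
      change Pi.mulSingle (M := fun i => ZMod (2 ^ i) → H) i 1 j x = 1
      rw [Pi.mulSingle_one]; rfl
    · rfl
  map_mul' f g := by
    apply Subtype.ext
    apply W.ext'
    · intro j x
      change Pi.mulSingle (M := fun i => ZMod (2 ^ i) → H) i (f * g) j x =
        Pi.mulSingle (M := fun i => ZMod (2 ^ i) → H) i f j x *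
          Pi.mulSingle (M := fun i => ZMod (2 ^ i) → H) i g j (x - ((0 : ℤ) : ZMod (2 ^ j)))
      rw [Int.cast_zero, sub_zero, Pi.mulSingle_mul]
      rfl
    · rfl

@[simp] lemma iota_sh (i : ℕ) (g : ZMod (2 ^ i) → H) : (iota i g : W H).sh = 0 := rfl

lemma iota_lamp_same (i : ℕ) (g : ZMod (2 ^ i) → H) (x : ZMod (2 ^ i)) :
    (iota i g : W H).lamp i x = g x := by
  change Pi.mulSingle (M := fun i => ZMod (2 ^ i) → H) i g i x = g x
  rw [Pi.mulSingle_eq_same]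

lemma iota_lamp_ne (i : ℕ) (g : ZMod (2 ^ i) → H) {j : ℕ} (h : j ≠ i) (x : ZMod (2 ^ j)) :
    (iota i g : W H).lamp j x = 1 := by
  change Pi.mulSingle (M := fun i => ZMod (2 ^ i) → H) i g j x = 1
  rw [Pi.mulSingle_eq_of_ne h]; rfl

/-- the value `h` at the position `z` in all coordinates `i ≥ m` -/
def D (m : ℕ) (z : ℤ) : H →* E H where
  toFun h := ⟨⟨fun i x => if m ≤ i ∧ x = (z : ZMod (2 ^ i)) then h else 1, 0⟩, by
    refine ⟨fun w => if w = z then h else 1, z.natAbs, m + 2 * z.natAbs + 1, fun w hw => ?_,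
      fun i hi w hw => ?_⟩
    · dsimp only
      rw [if_neg]
      rintro rfl
      rw [Int.natCast_natAbs] at hw
      exact lt_irrefl _ hw
    · have h1 := two_pow_mono hi
      have h2 := lt_two_pow_self' (m + 2 * z.natAbs + 1)
      push_cast at h2
      dsimp only
      by_cases hwz : w = z
      · subst hwz; rw [if_pos ⟨by omega, rfl⟩, if_pos rfl]
      · rw [if_neg hwz, if_neg]
        rintro ⟨-, h3⟩
        refine cast_ne hwz ?_ h3
        have := abs_sub w z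
        omega⟩
  map_one' := by
    apply Subtype.ext
    apply W.ext'
    · intro j x; simp
    · rfl
  map_mul' f g := by
    apply Subtype.ext
    apply W.ext'
    · intro j x
      change (if m ≤ j ∧ x = (z : ZMod (2 ^ j)) then f * g else 1) =
        (if m ≤ j ∧ x = (z : ZMod (2 ^ j)) then f else 1) *
          (if m ≤ j ∧ (x - ((0 : ℤ) : ZMod (2 ^ j))) = (z : ZMod (2 ^ j)) then g else 1)
      rw [Int.cast_zero, sub_zero]
      split_ifs <;> simp
    · rfl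

@[simp] lemma D_sh (m : ℕ) (z : ℤ) (h : H) : (D m z h : W H).sh = 0 := rfl
lemma D_lamp (m : ℕ) (z : ℤ) (h : H) (i : ℕ) (x : ZMod (2 ^ i)) :
    (D m z h : W H).lamp i x = if m ≤ i ∧ x = (z : ZMod (2 ^ i)) then h else 1 := rfl

@[simp] lemma sg_sh (k : ℤ) : (sg k : E H).1.sh = k := rfl
@[simp] lemma sg_lamp (k : ℤ) (i : ℕ) (x : ZMod (2 ^ i)) : (sg k : E H).1.lamp i x = 1 := rfl

lemma E.ext' {a b : E H} (h1 : ∀ i x, a.1.lamp i x = b.1.lamp i x) (h2 : a.1.sh = b.1.sh) :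
    a = b := Subtype.ext (W.ext' h1 h2)

@[simp] lemma coe_mul_lamp (a b : E H) (i : ℕ) (x : ZMod (2 ^ i)) :
    (a * b).1.lamp i x = a.1.lamp i x * b.1.lamp i (x - a.1.sh) := rfl
@[simp] lemma coe_mul_sh (a b : E H) : (a * b).1.sh = a.1.sh + b.1.sh := rfl
@[simp] lemma coe_inv_lamp (a : E H) (i : ℕ) (x : ZMod (2 ^ i)) :
    (a⁻¹).1.lamp i x = (a.1.lamp i (x + a.1.sh))⁻¹ := rfl
@[simp] lemma coe_inv_sh (a : E H) : (a⁻¹).1.sh = -a.1.sh := rfl
@[simp] lemma coe_one_lamp (i : ℕ) (x : ZMod (2 ^ i)) : (1 : E H).1.lamp i x = 1 := rfl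
@[simp] lemma coe_one_sh : (1 : E H).1.sh = 0 := rfl

/-- conjugation of a local element -/
lemma conj_iota_single (a : E H) (i : ℕ) (x : ZMod (2 ^ i)) (h : H) :
    a * iota i (Pi.mulSingle x h) * a⁻¹ =
      iota i (Pi.mulSingle (x + a.1.sh) (a.1.lamp i (x + a.1.sh) * h * (a.1.lamp i (x + a.1.sh))⁻¹)) := by
  apply E.ext'
  · intro j y
    by_cases hj : j = i
    · subst hj
      simp only [coe_mul_lamp, coe_mul_sh, coe_inv_lamp, iota_sh, iota_lamp_same]
      by_cases hy : y = x + a.1.sh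
      · subst hy
        simp
      · have h1 : y - a.1.sh ≠ x := fun h => hy (by rw [← h]; ring)
        rw [Pi.mulSingle_eq_of_ne h1, Pi.mulSingle_eq_of_ne hy]
        simp
    · simp only [coe_mul_lamp, coe_mul_sh, coe_inv_lamp, iota_sh, iota_lamp_ne _ _ hj]
      simp
  · simp

lemma sg_conj_D (m : ℕ) (z w : ℤ) (h : H) : sg w * D m z h * (sg w)⁻¹ = D m (z + w) h := by
  apply E.ext'
  · intro j y
    simp only [coe_mul_lamp, coe_mul_sh, coe_inv_lamp, D_lamp, sg_lamp, sg_sh, D_sh]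
    have : (y - (w : ZMod (2 ^ j)) = z) ↔ (y = ((z + w : ℤ) : ZMod (2 ^ j))) := by
      push_cast; exact sub_eq_iff_eq_add
    simp only [this]
    simp
  · simp

end Q24.IAS
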