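import Mathlib
import Pool.Agent.Q24.IAS.Grp

/-! Generation of the group `E H`. -/

namespace Q24.IAS

open scoped commutatorElement

variable {H : Type} [Group H]

lemma comm_lamp {u v : E H} (hu : u.1.sh = 0) (hv : v.1.sh = 0) (i : ℕ) (x : ZMod (2 ^ i)) :
    (⁅u, v⁆).1.lamp i x = ⁅u.1.lamp i x, v.1.lamp i x⁆ := by
  simp [commutatorElement_def, hu, hv]

lemma comm_sh (u v : E H) : (⁅u, v⁆).1.sh = 0 := by
  simp [commutatorElement_def]

/-- finitely supported elements -/
lemma mem_of_finite {C : Subgroup (E H)} {m : ℕ} (n : ℕ)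
    (hS : ∀ i, m ≤ i → i < n → ∀ g, iota i g ∈ C) (a : E H) (h0 : a.1.sh = 0)
    (h1 : ∀ i, i < m → ∀ x, a.1.lamp i x = 1) (h2 : ∀ i, n ≤ i → ∀ x, a.1.lamp i x = 1) :
    a ∈ C := by
  induction n generalizing a with
  | zero =>
    have : a = 1 := E.ext' (fun i x => by rw [h2 i (Nat.zero_le _)]; rfl) h0
    rw [this]; exact C.one_mem
  | succ n ih =>
    have ih' := fun a => ih (fun i hi hi' g => hS i hi (by omega) g) a
    rcases Nat.lt_or_ge n m with hnm | hnm
    · refine ih' a h0 h1 fun i hi x => ?_
      rcases Nat.eq_or_lt_of_le hi with h | h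
      · subst h; exact h1 _ hnm x
      · exact h2 i h x
    · have h3 : a * (iota n (a.1.lamp n))⁻¹ ∈ C := by
        refine ih' _ (by simp [h0]) (fun i hi x => ?_) fun i hi x => ?_
        · simp only [coe_mul_lamp, coe_inv_lamp, iota_lamp_ne n _ (show i ≠ n by omega), h1 i hi]
          simp
        · rcases Nat.eq_or_lt_of_le hi with h | h
          · subst h
            simp only [coe_mul_lamp, coe_inv_lamp, iota_lamp_same, h0, iota_sh]
            simp
          · simp only [coe_mul_lamp, coe_inv_lamp, iota_lamp_ne n _ (show i ≠ n by omega),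
              h2 i h]
            simp
      have h4 := C.mul_mem h3 (hS n hnm (Nat.lt_succ_self n) (a.1.lamp n))
      rwa [inv_mul_cancel_right] at h4

/-- all elements without shift -/
lemma mem_of_D {C : Subgroup (E H)} {m : ℕ}
    (hS : ∀ i, m ≤ i → ∀ g, iota i g ∈ C) (hD : ∀ z h, D m z h ∈ C) (a : E H) (h0 : a.1.sh = 0)
    (h1 : ∀ i, i < m → ∀ x, a.1.lamp i x = 1) : a ∈ C := by
  classical
  have key : ∀ (s : Finset ℤ) (a : E H), a.1.sh = 0 → (∀ i, i < m → ∀ x, a.1.lamp i x = 1) →
      (∃ (F : ℤ → H) (n : ℕ), (∀ z, z ∉ s → F z = 1) ∧ ∀ i, n ≤ i → ∀ z : ℤ, 2 * |z| ≤ 2 ^ i →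
        a.1.lamp i (z : ZMod (2 ^ i)) = F z) → a ∈ C := by
    intro s
    induction s using Finset.induction_on with
    | empty =>
      rintro a h0 h1 ⟨F, n, hF, hn⟩
      refine mem_of_finite n (fun i hi _ g => hS i hi g) a h0 h1 fun i hi x => ?_
      obtain ⟨z, hz, rfl⟩ := exists_rep i x
      rw [hn i hi z hz, hF z (Finset.notMem_empty z)]
    | @insert z s hzs ih =>
      rintro a h0 h1 ⟨F, n, hF, hn⟩
      have h3 : a * (D m z (F z))⁻¹ ∈ C := by
        refine ih _ (by simp [h0]) (fun i hi x => ?_)
          ⟨fun w => if w = z then 1 else F w, n + m + 2 * z.natAbs + 1, fun w hw => ?_,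
            fun i hi w hw => ?_⟩
        · simp only [coe_mul_lamp, coe_inv_lamp, h1 i hi, D_lamp]
          rw [if_neg (fun h => by omega)]
          simp
        · dsimp only
          split_ifs with h
          · rfl
          · refine hF w fun h' => ?_
            rcases Finset.mem_insert.mp h' with h' | h'
            · exact h h'
            · exact hw h'
        · have h4 := two_pow_mono hi
          have h5 := lt_two_pow_self' (n + m + 2 * z.natAbs + 1)
          push_cast at h5
          simp only [coe_mul_lamp, coe_inv_lamp, D_lamp, h0, D_sh, Int.cast_zero, sub_zero,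
            add_zero]
          rw [hn i (by omega) w hw]
          by_cases hwz : w = z
          · subst hwz
            rw [if_pos ⟨by omega, rfl⟩, if_pos rfl, mul_inv_cancel]
          · rw [if_neg hwz, if_neg, inv_one, mul_one]
            rintro ⟨-, h6⟩
            refine cast_ne hwz ?_ h6
            have := abs_sub w z
            omega
      have h4 := C.mul_mem h3 (hD z (F z))
      rwa [inv_mul_cancel_right] at h4
  obtain ⟨F, r, n, hF, hn⟩ := mem_E.mp a.2
  refine key (Finset.Icc (-(r : ℤ)) r) a h0 h1 ⟨F, n, fun z hz => hF z ?_, hn⟩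
  rw [Finset.mem_Icc] at hz
  rcases abs_cases z with h | h <;> omega

lemma iota_mem_of_zero {C : Subgroup (E H)} (hC : ∀ (z : ℤ), ∀ a ∈ C, sg z * a * (sg z)⁻¹ ∈ C)
    {i : ℕ} (h0 : ∀ h : H, iota i (Pi.mulSingle 0 h) ∈ C) (g : ZMod (2 ^ i) → H) :
    iota i g ∈ C := by
  have h1 : ∀ (x : ZMod (2 ^ i)) (h : H), iota i (Pi.mulSingle x h) ∈ C := by
    intro x h
    obtain ⟨z, -, rfl⟩ := exists_rep i x
    have h2 := hC z _ (h0 h)
    rw [conj_iota_single] at h2
    simpa using h2
  have h2 : g ∈ C.comap (iota i) :=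
    Subgroup.pi_mem_of_mulSingle_mem g fun x => h1 x (g x)
  exact h2

/-- the shift as a homomorphism -/
def sgHom : Multiplicative ℤ →* E H where
  toFun k := sg (Multiplicative.toAdd k)
  map_one' := E.ext' (fun _ _ => rfl) rfl
  map_mul' a b := E.ext' (fun i x => by simp) rfl

lemma sg_zpow (k : ℤ) : (sg 1 : E H) ^ k = sg k := by
  have h := map_zpow (sgHom (H := H)) (Multiplicative.ofAdd 1) k
  rw [← ofAdd_zsmul] at h
  have h2 : (sgHom (H := H)) (Multiplicative.ofAdd (k • (1 : ℤ))) = sg k := by
    change sg (k • (1 : ℤ)) = sg k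
    rw [smul_eq_mul, mul_one]
  rw [h2] at h
  exact h.symm

/-- `E H` is finitely generated when `H` is finite and perfect. -/
theorem fg_E [Finite H] (hP : commutator H = ⊤) : Group.FG (E H) := by
  classical
  let S : Set (E H) := insert (sg 1) (Set.range (D 0 0))
  have hfin : S.Finite := (Set.finite_range _).insert _
  refine Group.fg_iff.mpr ⟨S, ?_, hfin⟩
  set C := Subgroup.closure S with hC
  have hsg : ∀ k, sg k ∈ C := fun k => by
    rw [← sg_zpow]
    exact C.zpow_mem (Subgroup.subset_closure (Set.mem_insert _ _)) k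
  have hconj : ∀ (z : ℤ), ∀ a ∈ C, sg z * a * (sg z)⁻¹ ∈ C := fun z a ha =>
    C.mul_mem (C.mul_mem (hsg z) ha) (C.inv_mem (hsg z))
  have hD : ∀ z h, D 0 z h ∈ C := by
    intro z h
    have h1 : D 0 0 h ∈ C := Subgroup.subset_closure (Set.mem_insert_of_mem _ ⟨h, rfl⟩)
    have h2 := hconj z _ h1
    rwa [sg_conj_D, zero_add] at h2
  have hS : ∀ i, ∀ g, iota i g ∈ C := by
    intro i
    induction i using Nat.strong_induction_on with
    | _ i ih =>
      apply iota_mem_of_zero hconj
      have h1 : ∀ a b : H, iota i (Pi.mulSingle 0 ⁅a, b⁆) ∈ C := by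
        intro a b
        set u : E H := ⁅D 0 0 a, D 0 (2 ^ i) b⁆ with hu
        have hlamp : ∀ j x, u.1.lamp j x = if j ≤ i ∧ x = 0 then ⁅a, b⁆ else 1 := by
          intro j x
          rw [hu, comm_lamp rfl rfl, D_lamp, D_lamp]
          simp only [Nat.zero_le, true_and, Int.cast_zero]
          by_cases hj : j ≤ i
          · have h2 : ((2 ^ i : ℤ) : ZMod (2 ^ j)) = 0 := by
              obtain ⟨k, rfl⟩ := Nat.exists_eq_add_of_le hj
              rw [pow_add, Int.cast_mul, cast_two_pow, zero_mul]
            rw [h2]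
            by_cases hx : x = 0
            · simp [hj, hx]
            · simp [hx]
          · have h2 : ((2 ^ i : ℤ) : ZMod (2 ^ j)) ≠ ((0 : ℤ) : ZMod (2 ^ j)) := by
              apply cast_ne (by positivity)
              rw [sub_zero, abs_of_pos (by positivity)]
              exact pow_lt_pow_right₀ (by norm_num) (by omega)
            rw [Int.cast_zero] at h2
            have h3 : (if j ≤ i ∧ x = 0 then ⁅a, b⁆ else (1 : H)) = 1 := if_neg fun h => hj h.1
            rw [h3]
            by_cases hx : x = 0
            · subst hx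
              rw [if_neg (Ne.symm h2), commutatorElement_one_right]
            · rw [if_neg hx, commutatorElement_one_left]
        have huC : u ∈ C := by
          rw [hu, commutatorElement_def]
          exact C.mul_mem (C.mul_mem (C.mul_mem (hD _ _) (hD _ _)) (C.inv_mem (hD _ _)))
            (C.inv_mem (hD _ _))
        have hu0 : u.1.sh = 0 := comm_sh _ _
        have h3 : u * (iota i (Pi.mulSingle 0 ⁅a, b⁆))⁻¹ ∈ C := by
          refine mem_of_finite (m := 0) i (fun j _ hj g => ih j hj g) _ (by simp [hu0])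
            (fun j hj => absurd hj (Nat.not_lt_zero _)) fun j hj x => ?_
          simp only [coe_mul_lamp, coe_inv_lamp, hu0, iota_sh, hlamp]
          rcases Nat.eq_or_lt_of_le hj with h | h
          · subst h
            rw [iota_lamp_same]
            by_cases hx : x = 0
            · subst hx
              simp
              rw [← commutatorElement_inv a b, mul_inv_cancel]
            · simp [hx]
          · rw [iota_lamp_ne i _ (by omega), if_neg (fun h' => by omega)]
            simp
        have h4 := C.mul_mem (C.inv_mem h3) huC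
        rwa [mul_inv_rev, inv_inv, mul_assoc, inv_mul_cancel, mul_one] at h4
      intro h
      have h2 : commutator H ≤ (C.comap (iota i)).comap (MonoidHom.mulSingle (fun _ => H) 0) := by
        rw [commutator_eq_closure, Subgroup.closure_le]
        rintro _ ⟨a, b, rfl⟩
        exact h1 a b
      rw [hP] at h2
      exact h2 (Subgroup.mem_top h)
  rw [eq_top_iff]
  intro a _
  have h1 : a * sg (-a.1.sh) ∈ C := mem_of_D (m := 0) (fun i _ g => hS i g) hD _ (by simp)
    (fun j hj => absurd hj (Nat.not_lt_zero _))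
  have h2 := C.mul_mem h1 (hsg a.1.sh)
  have h3 : (sg (-a.1.sh) : E H) * sg a.1.sh = 1 := E.ext' (fun i x => by simp) (by simp)
  rwa [mul_assoc, h3, mul_one] at h2

end Q24.IAS
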