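import Mathlib
import Pool.Agent.Q24.IAS.Gen

/-! Finite normal subgroups, the characteristic subgroups of finite index, and the finite index
normal subgroups of `E H`. -/

namespace Q24.IAS

open scoped commutatorElement

variable {H : Type} [Group H]

/-- `H` is a finite non-abelian simple group (in the form in which it is used) -/
structure Good (H : Type) [Group H] : Prop where
  fin : Finite H
  cen : ∀ l : H, (∀ h, l * h * l⁻¹ = h) → l = 1
  nt : ∃ h : H, h ≠ 1
  perf : commutator H = ⊤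
  simple : ∀ N : Subgroup H, N.Normal → N ≠ ⊥ → N = ⊤

lemma int_eq_zero {z : ℤ} (h : ∀ i : ℕ, (z : ZMod (2 ^ i)) = 0) : z = 0 := by
  by_contra hne
  have h1 := h z.natAbs
  rw [← Int.cast_zero] at h1
  refine cast_ne hne ?_ h1
  rw [sub_zero]
  have := lt_two_pow_self' z.natAbs
  rwa [Int.natCast_natAbs] at this

/-- comparing two single local elements -/
lemma single_eq {i : ℕ} {x y : ZMod (2 ^ i)} {h k : H} (hk : k ≠ 1)
    (he : iota i (Pi.mulSingle x h) = iota i (Pi.mulSingle y k)) : x = y ∧ h = k := by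
  have h1 : ∀ z, (Pi.mulSingle x h : ZMod (2 ^ i) → H) z = (Pi.mulSingle y k : ZMod (2 ^ i) → H) z :=
    fun z => by
      rw [← iota_lamp_same i (Pi.mulSingle x h) z, ← iota_lamp_same i (Pi.mulSingle y k) z, he]
  have h2 := h1 y
  rw [Pi.mulSingle_eq_same] at h2
  have hxy : x = y := by
    by_contra hne
    rw [Pi.mulSingle_eq_of_ne (Ne.symm hne)] at h2
    exact hk h2.symm
  subst hxy
  rw [Pi.mulSingle_eq_same] at h2
  exact ⟨rfl, h2⟩

/-- the finitely supported elements in the first `m` coordinates -/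
def T (H : Type) [Group H] (m : ℕ) : Subgroup (E H) where
  carrier := {a | a.1.sh = 0 ∧ ∀ i, m ≤ i → ∀ x, a.1.lamp i x = 1}
  mul_mem' {a b} ha hb := ⟨by rw [coe_mul_sh, ha.1, hb.1]; rfl, fun i hi x => by
    rw [coe_mul_lamp, ha.2 i hi, hb.2 i hi, mul_one]⟩
  one_mem' := ⟨rfl, fun _ _ _ => rfl⟩
  inv_mem' {a} ha := ⟨by rw [coe_inv_sh, ha.1]; rfl, fun i hi x => by
    rw [coe_inv_lamp, ha.2 i hi, inv_one]⟩

lemma mem_T {m : ℕ} {a : E H} : a ∈ T H m ↔ a.1.sh = 0 ∧ ∀ i, m ≤ i → ∀ x, a.1.lamp i x = 1 :=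
  Iff.rfl

instance T_normal (m : ℕ) : (T H m).Normal := ⟨fun a ha b => by
  rw [mem_T] at ha ⊢
  refine ⟨by simp [ha.1], fun i hi x => ?_⟩
  simp only [coe_mul_lamp, coe_mul_sh, coe_inv_lamp, ha.2 i hi, ha.1]
  simp⟩

lemma T_inj {m : ℕ} : Function.Injective (fun (a : T H m) (i : Fin m) => a.1.1.lamp i) := by
  intro a b hab
  apply Subtype.ext
  apply E.ext'
  · intro i x
    by_cases hi : i < m
    · exact congrFun (congrFun hab ⟨i, hi⟩) x
    · rw [(mem_T.mp a.2).2 i (by omega), (mem_T.mp b.2).2 i (by omega)]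
  · rw [(mem_T.mp a.2).1, (mem_T.mp b.2).1]

instance T_finite [Finite H] (m : ℕ) : Finite (T H m) := Finite.of_injective _ T_inj

lemma card_T [Finite H] (m : ℕ) : Nat.card (T H m) ≤ Nat.card H ^ (2 ^ m - 1) := by
  refine (Nat.card_le_card_of_injective _ T_inj).trans ?_
  rw [Nat.card_pi]
  have h1 : ∀ i : Fin m, Nat.card (ZMod (2 ^ (i : ℕ)) → H) = Nat.card H ^ (2 ^ (i : ℕ)) := by
    intro i
    rw [Nat.card_fun, Nat.card_zmod]
  rw [Finset.prod_congr rfl fun i _ => h1 i, Finset.prod_pow_eq_pow_sum]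
  have h2 : ∑ i : Fin m, 2 ^ (i : ℕ) = 2 ^ m - 1 := by
    rw [Fin.sum_univ_eq_sum_range (fun i => 2 ^ i) m]
    exact Nat.geomSum_eq (le_refl 2) m |>.trans (by simp)
  rw [h2]

lemma sh_pow (a : E H) (n : ℕ) : (a ^ n).1.sh = n * a.1.sh := by
  induction n with
  | zero => simp
  | succ n ih => rw [pow_succ, coe_mul_sh, ih]; push_cast; ring

lemma sh_of_finite {T' : Subgroup (E H)} (hT : Finite T') {a : E H} (ha : a ∈ T') :
    a.1.sh = 0 := by
  have h1 : IsOfFinOrder (⟨a, ha⟩ : T') := isOfFinOrder_of_finite _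
  rw [isOfFinOrder_iff_pow_eq_one] at h1
  obtain ⟨n, hn, h2⟩ := h1
  have h3 : a ^ n = 1 := congrArg Subtype.val h2
  have h4 := sh_pow a n
  rw [h3, coe_one_sh] at h4
  have h5 : (n : ℤ) ≠ 0 := by exact_mod_cast hn.ne'
  rcases mul_eq_zero.mp h4.symm with h | h
  · exact absurd h h5
  · exact h

lemma conj_sg_mem {N : Subgroup (E H)} (hN : N.Normal) (z : ℤ) (a : E H) (ha : a ∈ N) :
    sg z * a * (sg z)⁻¹ ∈ N := hN.conj_mem a ha _

/-- a normal subgroup that meets a coordinate contains it -/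
lemma iota_mem_of_lamp (hH : Good H) {N : Subgroup (E H)} (hN : N.Normal) {a : E H} (ha : a ∈ N)
    (h0 : a.1.sh = 0) {i : ℕ} {x : ZMod (2 ^ i)} (hx : a.1.lamp i x ≠ 1) (g : ZMod (2 ^ i) → H) :
    iota i g ∈ N := by
  have h1 : ∃ k, a.1.lamp i x * k * (a.1.lamp i x)⁻¹ ≠ k := by
    by_contra hcon
    push Not at hcon
    exact hx (hH.cen _ hcon)
  obtain ⟨k, hk⟩ := h1
  have h2 : iota i (Pi.mulSingle x (a.1.lamp i x * k * (a.1.lamp i x)⁻¹ * k⁻¹)) ∈ N := by
    have h3 := hN.conj_mem a⁻¹ (N.inv_mem ha) (iota i (Pi.mulSingle x k))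
    have h4 := N.mul_mem ha h3
    have h5 := conj_iota_single a i x k
    rw [h0, Int.cast_zero, add_zero] at h5
    rw [Pi.mulSingle_mul, map_mul, ← h5, Pi.mulSingle_inv, map_inv]
    have h6 : a * (iota i (Pi.mulSingle x k) * a⁻¹ * (iota i (Pi.mulSingle x k))⁻¹) =
        a * iota i (Pi.mulSingle x k) * a⁻¹ * (iota i (Pi.mulSingle x k))⁻¹ := by group
    rw [← h6]
    exact h4
  -- the normal subgroup of `H`
  let M : Subgroup H := (N.comap (iota i)).comap (MonoidHom.mulSingle (fun _ => H) x)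
  have hM : M.Normal := by
    constructor
    intro b hb c
    have h3 := hN.conj_mem _ hb (iota i (Pi.mulSingle x c))
    change iota i (Pi.mulSingle x (c * b * c⁻¹)) ∈ N
    rw [Pi.mulSingle_mul, Pi.mulSingle_mul, Pi.mulSingle_inv, map_mul, map_mul, map_inv]
    exact h3
  have hM2 : M ≠ ⊥ := by
    intro hbot
    have h3 : a.1.lamp i x * k * (a.1.lamp i x)⁻¹ * k⁻¹ ∈ M := h2
    rw [hbot, Subgroup.mem_bot] at h3
    exact hk (mul_inv_eq_one.mp h3)
  have hM3 := hH.simple M hM hM2
  have h4 : ∀ h : H, iota i (Pi.mulSingle x h) ∈ N := fun h => by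
    have : h ∈ M := by rw [hM3]; exact Subgroup.mem_top h
    exact this
  apply iota_mem_of_zero (conj_sg_mem hN)
  intro h
  obtain ⟨z, -, rfl⟩ := exists_rep i x
  have h5 := conj_sg_mem hN (-z) _ (h4 h)
  rw [conj_iota_single] at h5
  simpa using h5

/-- small finite normal subgroups -/
lemma le_T (hH : Good H) {m : ℕ} {N : Subgroup (E H)} (hN : N.Normal) (hfin : Finite N)
    (hcard : Nat.card N < Nat.card H ^ 2 ^ m) : N ≤ T H m := by
  have := hH.fin
  intro a ha
  have h0 := sh_of_finite hfin ha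
  refine ⟨h0, fun i hi x => ?_⟩
  by_contra hx
  have h1 := iota_mem_of_lamp hH hN ha h0 hx
  have h2 : Function.Injective (fun g : ZMod (2 ^ i) → H => (⟨iota i g, h1 g⟩ : N)) := by
    intro f g hfg
    have h3 : iota i f = iota i g := congrArg Subtype.val hfg
    funext y
    rw [← iota_lamp_same i f y, ← iota_lamp_same i g y, h3]
  have h3 := Nat.card_le_card_of_injective _ h2
  rw [Nat.card_fun, Nat.card_zmod] at h3
  have h4 : Nat.card H ^ 2 ^ m ≤ Nat.card H ^ 2 ^ i :=
    Nat.pow_le_pow_right Nat.card_pos (Nat.pow_le_pow_right (by norm_num) hi)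
  omega

theorem T_char (hH : Good H) (m : ℕ) : (T H m).Characteristic := by
  have := hH.fin
  rw [Subgroup.characteristic_iff_map_le]
  intro φ
  have hn : ((T H m).map φ.toMonoidHom).Normal := (T_normal m).map _ φ.surjective
  have hcard : Nat.card ((T H m).map φ.toMonoidHom) = Nat.card (T H m) :=
    Nat.card_congr (Subgroup.equivMapOfInjective _ _ φ.injective).symm.toEquiv
  have hfin : Finite ((T H m).map φ.toMonoidHom) :=
    Finite.of_equiv _ (Subgroup.equivMapOfInjective _ _ φ.injective).toEquiv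
  refine le_T hH hn hfin ?_
  rw [hcard]
  refine (card_T m).trans_lt (Nat.pow_lt_pow_right ?_ ?_)
  · obtain ⟨h, hh⟩ := hH.nt
    have : Nontrivial H := ⟨h, 1, hh⟩
    exact Finite.one_lt_card
  · have := Nat.pos_of_ne_zero (pow_ne_zero m (two_ne_zero (α := ℕ)))
    omega

/-- the characteristic subgroups of finite index -/
def K (H : Type) [Group H] (m : ℕ) : Subgroup (E H) := Subgroup.centralizer (T H m : Set (E H))

theorem K_char (hH : Good H) (m : ℕ) : (K H m).Characteristic := by
  have := T_char hH m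
  unfold K
  infer_instance

theorem K_finiteIndex (hH : Good H) (m : ℕ) : (K H m).FiniteIndex := by
  have := hH.fin
  have h1 : (MulAut.conjNormal : E H →* MulAut (T H m)).ker ≤ K H m := by
    intro a ha
    rw [MonoidHom.mem_ker] at ha
    unfold K
    rw [Subgroup.mem_centralizer_iff]
    intro t ht
    have h2 := congrArg (fun φ : MulAut (T H m) => ((φ ⟨t, ht⟩ : T H m) : E H)) ha
    simp only [MulAut.conjNormal_apply, MulAut.one_apply] at h2
    rw [mul_inv_eq_iff_eq_mul] at h2
    exact h2.symm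
  have h2 : Finite (MulAut (T H m)) :=
    Finite.of_injective (fun φ : MulAut (T H m) => (φ : T H m → T H m)) DFunLike.coe_injective
  exact Subgroup.finiteIndex_of_le h1

lemma mem_K (hH : Good H) {m : ℕ} {a : E H} (ha : a ∈ K H m) {i : ℕ} (hi : i < m) :
    (∀ x, a.1.lamp i x = 1) ∧ (a.1.sh : ZMod (2 ^ i)) = 0 := by
  obtain ⟨h0, hh0⟩ := hH.nt
  have key : ∀ (x : ZMod (2 ^ i)) (h : H),
      a * iota i (Pi.mulSingle x h) * a⁻¹ = iota i (Pi.mulSingle x h) := by
    intro x h
    unfold K at ha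
    rw [Subgroup.mem_centralizer_iff] at ha
    have h1 : iota i (Pi.mulSingle x h) ∈ T H m := by
      refine ⟨rfl, fun j hj y => iota_lamp_ne i _ (by omega) y⟩
    rw [mul_inv_eq_iff_eq_mul]
    exact (ha _ h1).symm
  have hsh : ∀ x : ZMod (2 ^ i), x + a.1.sh = x := by
    intro x
    have h1 := key x h0
    rw [conj_iota_single] at h1
    exact (single_eq hh0 h1).1
  have hz : (a.1.sh : ZMod (2 ^ i)) = 0 := by simpa using hsh 0
  refine ⟨fun x => hH.cen _ fun h => ?_, hz⟩
  by_cases hh : h = 1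
  · subst hh; simp
  · have h1 := key x h
    rw [conj_iota_single, hz, add_zero] at h1
    exact (single_eq hh h1).2

/-- every normal subgroup of finite index contains all elements that are trivial in the first
coordinates -/
theorem exists_le (hH : Good H) {N : Subgroup (E H)} (hN : N.Normal) (hfi : N.FiniteIndex) :
    ∃ m, ∀ a : E H, a.1.sh = 0 → (∀ i, i < m → ∀ x, a.1.lamp i x = 1) → a ∈ N := by
  classical
  have := hH.fin
  have hQ : Finite (E H ⧸ N) := inferInstance
  let π : E H →* E H ⧸ N := QuotientGroup.mk' N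
  have hfin : Finite (H →* E H ⧸ N) :=
    Finite.of_injective (fun φ : H →* E H ⧸ N => (φ : H → E H ⧸ N)) DFunLike.coe_injective
  -- homomorphisms with commuting images
  have hab : ∀ φ : H →* E H ⧸ N, (∀ a b, φ a * φ b = φ b * φ a) → φ = 1 := by
    intro φ hφ
    have h1 : commutator H ≤ φ.ker := by
      rw [commutator_eq_closure, Subgroup.closure_le]
      rintro _ ⟨a, b, rfl⟩
      rw [SetLike.mem_coe, MonoidHom.mem_ker, map_commutatorElement,
        commutatorElement_eq_one_iff_mul_comm]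
      exact hφ a b
    rw [hH.perf] at h1
    ext a
    exact h1 (Subgroup.mem_top a)
  let lam : ℕ → (H →* E H ⧸ N) := fun i =>
    (π.comp (iota i)).comp (MonoidHom.mulSingle (fun _ => H) 0)
  have hlam : ∀ i j, i ≠ j → ∀ a b, lam i a * lam j b = lam j b * lam i a := by
    intro i j hij a b
    change π (iota i (Pi.mulSingle 0 a)) * π (iota j (Pi.mulSingle 0 b)) =
      π (iota j (Pi.mulSingle 0 b)) * π (iota i (Pi.mulSingle 0 a))
    rw [← map_mul, ← map_mul]
    congr 1
    apply E.ext'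
    · intro k x
      simp only [coe_mul_lamp, iota_sh, Int.cast_zero, sub_zero]
      by_cases hk : k = i
      · rw [iota_lamp_ne j _ (show k ≠ j by omega)]; simp
      · rw [iota_lamp_ne i _ hk]; simp
    · simp
  have hbd : {i | lam i ≠ 1}.Finite := by
    by_contra hinf
    obtain ⟨i, hi, j, -, hij, h⟩ := Set.Infinite.exists_ne_map_eq_of_mapsTo
      (Set.not_infinite.not.mp (by simpa using hinf)) (Set.mapsTo_univ lam _) Set.finite_univ
    refine hi (hab _ fun a b => ?_)
    have h1 := hlam i j hij a b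
    rwa [← h] at h1
  obtain ⟨m0, hm0⟩ := hbd.bddAbove
  let m := m0 + 1
  have hS : ∀ i, m ≤ i → ∀ g, iota i g ∈ N := by
    intro i hi g
    apply iota_mem_of_zero (conj_sg_mem hN)
    intro h
    have h1 : lam i = 1 := by
      by_contra hne
      have := hm0 hne
      omega
    have h2 : lam i h = 1 := by rw [h1]; rfl
    exact (QuotientGroup.eq_one_iff _).mp h2
  let mu : ℤ → (H →* E H ⧸ N) := fun z => π.comp (D m z)
  have hmu : ∀ z w, z ≠ w → ∀ a b, mu z a * mu w b = mu w b * mu z a := by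
    intro z w hzw a b
    rw [← commutatorElement_eq_one_iff_mul_comm]
    change ⁅π (D m z a), π (D m w b)⁆ = 1
    rw [← map_commutatorElement]
    refine (QuotientGroup.eq_one_iff _).mpr ?_
    refine mem_of_finite (m := m) ((z - w).natAbs + 1) (fun i hi _ g => hS i hi g) _ (comm_sh _ _)
      (fun i hi x => ?_) fun i hi x => ?_
    · rw [comm_lamp rfl rfl, D_lamp, if_neg (fun h => by omega), commutatorElement_one_left]
    · rw [comm_lamp rfl rfl, D_lamp, D_lamp]
      by_cases hx : x = (z : ZMod (2 ^ i))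
      · subst hx
        have h1 : (z : ZMod (2 ^ i)) ≠ (w : ZMod (2 ^ i)) := by
          apply cast_ne hzw
          have h2 := lt_two_pow_self' (z - w).natAbs
          rw [Int.natCast_natAbs] at h2
          exact h2.trans_le (two_pow_mono (by omega))
        have h3 : (if m ≤ i ∧ (z : ZMod (2 ^ i)) = (w : ZMod (2 ^ i)) then b else 1) = 1 :=
          if_neg fun h => h1 h.2
        rw [h3, commutatorElement_one_right]
      · rw [if_neg (fun h => hx h.2), commutatorElement_one_left]
  obtain ⟨z, w, hzw, h⟩ := Finite.exists_ne_map_eq_of_infinite mu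
  have hz : mu z = 1 := hab _ fun a b => by
    have h1 := hmu z w hzw a b
    rwa [← h] at h1
  have hD : ∀ w h, D m w h ∈ N := by
    intro w h
    have h1 : D m z h ∈ N := by
      have h2 : mu z h = 1 := by rw [hz]; rfl
      exact (QuotientGroup.eq_one_iff _).mp h2
    have h2 := conj_sg_mem hN (w - z) _ h1
    rw [sg_conj_D] at h2
    rwa [add_sub_cancel] at h2
  exact ⟨m, fun a h0 h1 => mem_of_D hS hD a h0 h1⟩

end Q24.IAS
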