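import Mathlib
import Pool.Agent.Q24.IAS.Defs
import Pool.Agent.Q24.IAS.Tm

/-! Automorphisms of `E H`. -/

namespace Q24.IAS

open scoped commutatorElement

variable {H : Type} [Group H]

lemma EvLoc.fam {f : ∀ i : ℕ, ZMod (2 ^ i) → H} (hf : EvLoc f) {θ : ℕ → MulAut H}
    (hθ : ∃ (m : ℕ) (τ : MulAut H), ∀ i, m ≤ i → θ i = τ) : EvLoc fun i x => θ i (f i x) := by
  obtain ⟨F, r, m, hF, hm⟩ := hf
  obtain ⟨n, τ, hn⟩ := hθ
  refine ⟨fun z => τ (F z), r, max m n, fun z hz => ?_, fun i hi z hz => ?_⟩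
  · dsimp only
    rw [hF z hz, map_one]
  · dsimp only
    rw [hm i ((le_max_left _ _).trans hi) z hz, hn i ((le_max_right _ _).trans hi)]

/-- coordinatewise automorphisms -/
def fam (θ : ℕ → MulAut H) (hθ : ∃ (m : ℕ) (τ : MulAut H), ∀ i, m ≤ i → θ i = τ) :
    MulAut (E H) where
  toFun a := ⟨⟨fun i x => θ i (a.1.lamp i x), a.1.sh⟩, EvLoc.fam (mem_E.mp a.2) hθ⟩
  invFun a := ⟨⟨fun i x => (θ i)⁻¹ (a.1.lamp i x), a.1.sh⟩, EvLoc.fam (mem_E.mp a.2) (by
    obtain ⟨m, τ, h⟩ := hθ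
    exact ⟨m, τ⁻¹, fun i hi => by rw [h i hi]⟩)⟩
  left_inv a := E.ext' (fun i x => by
    change (θ i)⁻¹ (θ i (a.1.lamp i x)) = _
    simp) rfl
  right_inv a := E.ext' (fun i x => by
    change θ i ((θ i)⁻¹ (a.1.lamp i x)) = _
    simp) rfl
  map_mul' a b := E.ext' (fun i x => by
    change θ i (a.1.lamp i x * b.1.lamp i (x - a.1.sh)) =
      θ i (a.1.lamp i x) * θ i (b.1.lamp i (x - a.1.sh))
    rw [map_mul]) rfl

lemma fam_lamp {θ : ℕ → MulAut H} (hθ : ∃ (m : ℕ) (τ : MulAut H), ∀ i, m ≤ i → θ i = τ)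
    (a : E H) (i : ℕ) (x : ZMod (2 ^ i)) : (fam θ hθ a).1.lamp i x = θ i (a.1.lamp i x) := rfl
lemma fam_sh {θ : ℕ → MulAut H} (hθ : ∃ (m : ℕ) (τ : MulAut H), ∀ i, m ≤ i → θ i = τ)
    (a : E H) : (fam θ hθ a).1.sh = a.1.sh := rfl

/-- inner coordinatewise automorphisms -/
lemma fam_inner (hH : Good H) {θ : ℕ → MulAut H}
    (hθ : ∃ (m : ℕ) (τ : MulAut H), ∀ i, m ≤ i → θ i = τ) (h : fam θ hθ ∈ Inn (E H)) :
    ∃ a : E H, a.1.sh = 0 ∧ ∀ i x h, θ i h = a.1.lamp i x * h * (a.1.lamp i x)⁻¹ := by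
  obtain ⟨a, ha⟩ := h
  have key : ∀ i (x : ZMod (2 ^ i)) (h : H),
      iota i (Pi.mulSingle x (θ i h)) =
      iota i (Pi.mulSingle (x + a.1.sh) (a.1.lamp i (x + a.1.sh) * h *
        (a.1.lamp i (x + a.1.sh))⁻¹)) := by
    intro i x h
    rw [← conj_iota_single, ← MulAut.conj_apply, ha]
    apply E.ext'
    · intro j y
      rw [fam_lamp]
      by_cases hj : j = i
      · subst hj
        rw [iota_lamp_same, iota_lamp_same]
        by_cases hy : y = x
        · subst hy; simp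
        · simp [Pi.mulSingle_eq_of_ne hy]
      · rw [iota_lamp_ne i _ hj, iota_lamp_ne i _ hj, map_one]
    · rfl
  obtain ⟨h0, hh0⟩ := hH.nt
  have hz : a.1.sh = 0 := by
    apply int_eq_zero
    intro i
    have h1 := key i 0 h0
    have h2 : a.1.lamp i (0 + a.1.sh) * h0 * (a.1.lamp i (0 + a.1.sh))⁻¹ ≠ 1 := by
      intro h; rw [mul_inv_eq_one] at h; exact hh0 (by simpa using h)
    have h3 := (single_eq h2 h1).1
    simpa using h3.symm
  refine ⟨a, hz, fun i x h => ?_⟩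
  by_cases hh : h = 1
  · subst hh; simp
  · have h1 := key i x h
    rw [hz, Int.cast_zero, add_zero] at h1
    have h2 : a.1.lamp i x * h * (a.1.lamp i x)⁻¹ ≠ 1 := by
      intro h'; rw [mul_inv_eq_one] at h'; exact hh (by simpa using h')
    exact (single_eq h2 h1).2

lemma const_ok (τ : MulAut H) :
    ∃ (m : ℕ) (τ' : MulAut H), ∀ i, m ≤ i → (fun _ : ℕ => τ) i = τ' := ⟨0, τ, fun _ _ => rfl⟩

/-- conjugation of all lamps by `c` -/
def phi : H →* MulAut (E H) where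
  toFun c := fam (fun _ => MulAut.conj c) (const_ok _)
  map_one' := by
    ext a : 1
    exact E.ext' (fun i x => by rw [fam_lamp]; simp) rfl
  map_mul' c d := by
    ext a : 1
    exact E.ext' (fun i x => by
      rw [fam_lamp]
      change _ = (fam (fun _ => MulAut.conj c) (const_ok _)
        (fam (fun _ => MulAut.conj d) (const_ok _) a)).1.lamp i x
      rw [fam_lamp, fam_lamp]; simp [mul_assoc]) rfl

lemma phi_lamp (c : H) (a : E H) (i : ℕ) (x : ZMod (2 ^ i)) :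
    (phi c a).1.lamp i x = c * a.1.lamp i x * c⁻¹ := rfl
lemma phi_sh (c : H) (a : E H) : (phi c a).1.sh = a.1.sh := rfl

theorem phi_outer (hH : Good H) {c : H} (hc : phi c ∈ Inn (E H)) : c = 1 := by
  obtain ⟨a, -, h⟩ := fam_inner hH (const_ok _) hc
  have h1 : ∀ i x, a.1.lamp i x = c := by
    intro i x
    have h2 : ∀ k, (c⁻¹ * a.1.lamp i x) * k * (c⁻¹ * a.1.lamp i x)⁻¹ = k := by
      intro k
      have h3 := h i x k
      rw [MulAut.conj_apply] at h3
      have h4 : (c⁻¹ * a.1.lamp i x) * k * (c⁻¹ * a.1.lamp i x)⁻¹ =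
        c⁻¹ * (a.1.lamp i x * k * (a.1.lamp i x)⁻¹) * c := by group
      rw [h4, ← h3]; group
    have h5 := hH.cen _ h2
    rw [inv_mul_eq_one] at h5
    exact h5.symm
  obtain ⟨F, r, m, hF, hm⟩ := mem_E.mp a.2
  have h2 := hF (r + 1) (by rw [abs_of_nonneg (by positivity)]; omega)
  have h3 := lt_two_pow_self' (m + 2 * (r + 1))
  have h4 := hm (m + 2 * (r + 1)) (by omega) (r + 1) (by
    rw [abs_of_nonneg (by positivity)]; push_cast at h3; omega)
  rw [h1, h2] at h4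
  exact h4

lemma indAut_mk {G : Type} [Group G] (K : Subgroup G) [K.Characteristic] (ψ : MulAut G) (x : G) :
    indAut K ψ (x : G ⧸ K) = ((ψ x : G) : G ⧸ K) := rfl

lemma indAut_inner_iff {G : Type} [Group G] (K : Subgroup G) [K.Characteristic] (ψ : MulAut G) :
    indAut K ψ ∈ Inn (G ⧸ K) ↔ ∃ g : G, ∀ x : G, (g * x * g⁻¹) * (ψ x)⁻¹ ∈ K := by
  constructor
  · rintro ⟨q, hq⟩
    obtain ⟨g, rfl⟩ := QuotientGroup.mk_surjective q
    refine ⟨g, fun x => ?_⟩
    have h1 := DFunLike.congr_fun hq (x : G ⧸ K)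
    rw [MulAut.conj_apply, indAut_mk] at h1
    rw [← QuotientGroup.eq_one_iff, QuotientGroup.mk_mul, QuotientGroup.mk_inv, mul_inv_eq_one]
    exact h1
  · rintro ⟨g, hg⟩
    refine ⟨(g : G ⧸ K), ?_⟩
    ext q
    induction q using QuotientGroup.induction_on with
    | H x =>
      rw [MulAut.conj_apply, indAut_mk]
      have h1 := hg x
      rw [← QuotientGroup.eq_one_iff, QuotientGroup.mk_mul, QuotientGroup.mk_inv,
        mul_inv_eq_one] at h1
      exact h1

/-- `phi c` is inner modulo every normal subgroup of finite index -/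
theorem phi_inner_mod (hH : Good H) (c : H) {N : Subgroup (E H)} (hN : N.Normal)
    (hfi : N.FiniteIndex) : ∃ g : E H, ∀ x : E H, (g * x * g⁻¹) * (phi c x)⁻¹ ∈ N := by
  obtain ⟨m, hm⟩ := exists_le hH hN hfi
  let g : E H := ⟨⟨fun i _ => if i < m then c else 1, 0⟩, evLoc_of_finite m fun i hi x =>
    if_neg (by omega)⟩
  refine ⟨g, fun x => hm _ ?_ fun i hi y => ?_⟩
  · simp only [coe_mul_sh, coe_inv_sh, phi_sh]
    ring
  · have h1 : ∀ y, g.1.lamp i y = c := fun y => if_pos hi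
    have h2 : g.1.sh = 0 := rfl
    simp only [coe_mul_lamp, coe_inv_lamp, coe_mul_sh, coe_inv_sh, phi_lamp, phi_sh, h1, h2]
    simp

theorem not_ias (hH : Good H) : ¬ InnerAutSep (E H) := by
  intro hI
  obtain ⟨c, hc⟩ := hH.nt
  obtain ⟨K, hK, hfi, h⟩ := hI (phi c) fun h => hc (phi_outer hH h)
  apply h
  rw [indAut_inner_iff]
  exact phi_inner_mod hH c inferInstance hfi

/-- residual finiteness from finite index normal subgroups -/
lemma resFin_E (hH : Good H) : ResiduallyFin (E H) := by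
  intro a ha
  have : ∃ m, a ∉ K H m := by
    by_contra hcon
    push Not at hcon
    apply ha
    apply E.ext'
    · intro i x
      exact (mem_K hH (hcon (i + 1)) (Nat.lt_succ_self i)).1 x
    · exact int_eq_zero fun i => (mem_K hH (hcon (i + 1)) (Nat.lt_succ_self i)).2
  obtain ⟨m, hm⟩ := this
  have h1 := K_finiteIndex hH m
  have h2 := K_char hH m
  refine ⟨E H ⧸ K H m, inferInstance, inferInstance, QuotientGroup.mk' (K H m), fun h => ?_⟩
  exact hm ((QuotientGroup.eq_one_iff a).mp h)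

/-- infinitely many outer automorphisms -/
theorem infinite_out (hH : Good H) {θ : MulAut H} (hθ : ∀ c : H, θ ≠ MulAut.conj c) :
    Infinite (Out (E H)) := by
  classical
  have hok : ∀ j : ℕ, ∃ (m : ℕ) (τ : MulAut H), ∀ i, m ≤ i → (fun i => if i = j then θ else 1) i = τ :=
    fun j => ⟨j + 1, 1, fun i hi => if_neg (by omega)⟩
  let Ψ : ℕ → MulAut (E H) := fun j => fam _ (hok j)
  refine Infinite.of_injective (fun j => (Ψ j : Out (E H))) ?_
  intro j l hjl
  by_contra hne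
  have h1 : (Ψ j)⁻¹ * Ψ l ∈ Inn (E H) := QuotientGroup.eq.mp hjl
  have h1' : (Ψ l)⁻¹ * Ψ j ∈ Inn (E H) := QuotientGroup.eq.mp hjl.symm
  have hok2 : ∃ (m : ℕ) (τ : MulAut H), ∀ i, m ≤ i →
      (fun i => (if i = l then θ else 1)⁻¹ * (if i = j then θ else 1)) i = τ :=
    ⟨j + l + 1, 1, fun i hi => by
      dsimp only
      rw [if_neg (by omega), if_neg (by omega)]; simp⟩
  have h2 : (Ψ l)⁻¹ * Ψ j = fam _ hok2 := by
    rw [inv_mul_eq_iff_eq_mul]
    ext a : 1
    apply E.ext'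
    · intro i x
      change (fam _ (hok j) a).1.lamp i x = (fam _ (hok l) (fam _ hok2 a)).1.lamp i x
      rw [fam_lamp, fam_lamp, fam_lamp, ← MulAut.mul_apply, mul_inv_cancel_left]
    · rfl
  rw [h2] at h1'
  obtain ⟨a, -, ha⟩ := fam_inner hH hok2 h1'
  apply hθ (a.1.lamp j 0)
  ext h
  have h3 := ha j 0 h
  rw [if_neg hne, if_pos rfl] at h3
  rw [MulAut.conj_apply]
  simpa using h3

end Q24.IAS
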