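import Mathlib
import Pool.Agent.Q24.IAS.Aut

/-! Automorphisms that are inner modulo all the subgroups `K m`, and residual finiteness of the
outer automorphism group. -/

namespace Q24.IAS

open scoped commutatorElement

variable {H : Type} [Group H]

lemma psi_iota (hH : Good H) {ψ : MulAut (E H)} {m : ℕ} {a : E H}
    (ha : ∀ x : E H, (a * x * a⁻¹) * (ψ x)⁻¹ ∈ K H m) {i : ℕ} (hi : i < m)
    (g : ZMod (2 ^ i) → H) : ψ (iota i g) = a * iota i g * a⁻¹ := by
  have hT : iota i g ∈ T H m := ⟨rfl, fun j hj y => iota_lamp_ne i _ (by omega) y⟩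
  have h1 : ψ (iota i g) ∈ T H m := by
    have := T_char hH m
    have h2 := Subgroup.characteristic_iff_map_le.mp this ψ
    exact h2 ⟨_, hT, rfl⟩
  have h2 : a * iota i g * a⁻¹ ∈ T H m := (T_normal m).conj_mem _ hT _
  have h3 : (a * iota i g * a⁻¹) * (ψ (iota i g))⁻¹ ∈ T H m :=
    (T H m).mul_mem h2 ((T H m).inv_mem h1)
  have h4 := ha (iota i g)
  have h5 : (a * iota i g * a⁻¹) * (ψ (iota i g))⁻¹ = 1 := by
    apply E.ext'
    · intro j x
      by_cases hj : j < m
      · exact (mem_K hH h4 hj).1 x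
      · exact (mem_T.mp h3).2 j (by omega) x
    · exact (mem_T.mp h3).1
  exact (mul_inv_eq_one.mp h5).symm

lemma eq_of_conj (hH : Good H) {l l' : H} (h : ∀ k, l * k * l⁻¹ = l' * k * l'⁻¹) : l = l' := by
  have h2 : ∀ k, (l'⁻¹ * l) * k * (l'⁻¹ * l)⁻¹ = k := by
    intro k
    have h4 : (l'⁻¹ * l) * k * (l'⁻¹ * l)⁻¹ = l'⁻¹ * (l * k * l⁻¹) * l' := by group
    rw [h4, h k]; group
  have h5 := hH.cen _ h2
  rw [inv_mul_eq_one] at h5
  exact h5.symm

/-- the classification -/
theorem classify (hH : Good H) {ψ : MulAut (E H)}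
    (hψ : ∀ m, ∃ a : E H, ∀ x : E H, (a * x * a⁻¹) * (ψ x)⁻¹ ∈ K H m) :
    ∃ (c : H) (b s : E H), ψ = MulAut.conj b * phi c * MulAut.conj s := by
  classical
  choose a ha using hψ
  obtain ⟨h0, hh0⟩ := hH.nt
  have hne1 : ∀ l : H, l * h0 * l⁻¹ ≠ 1 := by
    intro l h; rw [mul_inv_eq_one] at h; exact hh0 (by simpa using h)
  -- the data in the coordinate `i` do not depend on `m`
  have hcons : ∀ i m m', i < m → i < m' →
      ((a m).1.sh : ZMod (2 ^ i)) = (a m').1.sh ∧ ∀ x, (a m).1.lamp i x = (a m').1.lamp i x := by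
    intro i m m' hm hm'
    have key : ∀ (x : ZMod (2 ^ i)) (h : H),
        a m * iota i (Pi.mulSingle x h) * (a m)⁻¹ =
          a m' * iota i (Pi.mulSingle x h) * (a m')⁻¹ := by
      intro x h
      rw [← psi_iota hH (ha m) hm, ← psi_iota hH (ha m') hm']
    have h1 := key 0 h0
    rw [conj_iota_single, conj_iota_single] at h1
    have h2 := (single_eq (hne1 _) h1).1
    rw [zero_add, zero_add] at h2
    refine ⟨h2, fun x => eq_of_conj hH fun k => ?_⟩
    by_cases hk : k = 1
    · subst hk; simp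
    · have h3 := key (x - (a m).1.sh) k
      rw [conj_iota_single, conj_iota_single, ← h2] at h3
      have h4 : (a m').1.lamp i (x - (a m).1.sh + (a m).1.sh) * k *
          ((a m').1.lamp i (x - (a m).1.sh + (a m).1.sh))⁻¹ ≠ 1 := by
        intro h; rw [mul_inv_eq_one] at h; exact hk (by simpa using h)
      have h5 := (single_eq h4 h3).2
      simpa using h5
  let f : ∀ i : ℕ, ZMod (2 ^ i) → H := fun i => (a (i + 1)).1.lamp i
  let κ : ∀ i : ℕ, ZMod (2 ^ i) := fun i => ((a (i + 1)).1.sh : ZMod (2 ^ i))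
  have hf : ∀ i m, i < m → (∀ x, (a m).1.lamp i x = f i x) ∧ ((a m).1.sh : ZMod (2 ^ i)) = κ i :=
    fun i m hm => ⟨(hcons i m (i + 1) hm (Nat.lt_succ_self i)).2,
      (hcons i m (i + 1) hm (Nat.lt_succ_self i)).1⟩
  -- the formula for `ψ`
  have hsh : ∀ x : E H, (ψ x).1.sh = x.1.sh := by
    intro x
    have h1 : x.1.sh - (ψ x).1.sh = 0 := by
      apply int_eq_zero
      intro i
      have h2 := (mem_K hH (ha (i + 1) x) (Nat.lt_succ_self i)).2
      simp only [coe_mul_sh, coe_inv_sh] at h2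
      rw [← h2]
      push_cast; ring
    omega
  have hlamp : ∀ (x : E H) (i : ℕ) (y : ZMod (2 ^ i)),
      (ψ x).1.lamp i y = f i y * x.1.lamp i (y - κ i) * (f i (y - x.1.sh))⁻¹ := by
    intro x i y
    have h2 := (mem_K hH (ha (i + 1) x) (Nat.lt_succ_self i)).1 y
    rw [coe_mul_lamp, coe_inv_lamp, mul_inv_eq_one] at h2
    have h3 : y - (((a (i + 1) * x * (a (i + 1))⁻¹).1.sh : ℤ) : ZMod (2 ^ i)) +
        (((ψ x).1.sh : ℤ) : ZMod (2 ^ i)) = y := by
      rw [hsh]
      simp only [coe_mul_sh, coe_inv_sh]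
      push_cast; ring
    rw [h3] at h2
    rw [← h2]
    simp only [coe_mul_lamp, coe_mul_sh, coe_inv_lamp]
    have h4 : y - (((a (i + 1)).1.sh + x.1.sh : ℤ) : ZMod (2 ^ i)) + ((a (i + 1)).1.sh : ℤ) =
        y - x.1.sh := by
      push_cast; ring
    rw [h4]
  -- the shift is an integer
  obtain ⟨z, hz⟩ : ∃ z : ℤ, ∀ i, κ i = (z : ZMod (2 ^ i)) := by
    obtain ⟨F, r, m, hF, hm⟩ := mem_E.mp (ψ (D 0 0 h0)).2
    have h1 : ∀ i y, (ψ (D 0 0 h0)).1.lamp i y = if y = κ i then f i y * h0 * (f i y)⁻¹ else 1 := by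
      intro i y
      rw [hlamp, D_lamp, D_sh, Int.cast_zero, sub_zero]
      by_cases hy : y = κ i
      · subst hy; simp
      · have : ¬ (0 ≤ i ∧ y - κ i = 0) := by
          rintro ⟨-, h⟩; rw [sub_eq_zero] at h; exact hy h
        rw [if_neg this, if_neg hy]; simp
    obtain ⟨z, hz, hzκ⟩ := exists_rep m (κ m)
    have h2 : F z ≠ 1 := by
      rw [← hm m le_rfl z hz, h1, hzκ, if_pos rfl]
      exact hne1 _
    refine ⟨z, fun i => ?_⟩
    rcases Nat.lt_or_ge i m with hi | hi
    · have h3 := (hf i (m + 1) (by omega)).2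
      have h4 := (hf m (m + 1) (by omega)).2
      rw [← h3]
      rw [← hzκ] at h4
      have h5 : (((a (m + 1)).1.sh - z : ℤ) : ZMod (2 ^ m)) = 0 := by
        rw [Int.cast_sub, h4, sub_self]
      rw [ZMod.intCast_zmod_eq_zero_iff_dvd] at h5
      have h6 : (((a (m + 1)).1.sh - z : ℤ) : ZMod (2 ^ i)) = 0 := by
        rw [ZMod.intCast_zmod_eq_zero_iff_dvd]
        refine dvd_trans ?_ h5
        exact_mod_cast pow_dvd_pow 2 (le_of_lt hi)
      rw [Int.cast_sub, sub_eq_zero] at h6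
      exact h6
    · have h3 := hm i hi z (hz.trans (two_pow_mono hi))
      rw [h1] at h3
      by_contra hne
      rw [if_neg (fun h => hne h.symm)] at h3
      exact h2 h3.symm
  -- the value at `0` is eventually constant
  have hfin := hH.fin
  obtain ⟨M, e, he⟩ : ∃ (M : ℕ) (e : H), ∀ i, M ≤ i → f i 0 = e := by
    have h1 : ∀ h : H, ∃ (m : ℕ) (k : H), ∀ i, m ≤ i → f i 0 * h * (f i 0)⁻¹ = k := by
      intro h
      obtain ⟨F, r, m, hF, hm⟩ := mem_E.mp (ψ (D 0 (-z) h)).2
      refine ⟨m, F 0, fun i hi => ?_⟩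
      have h2 := hm i hi 0 (by simp)
      rw [hlamp, D_lamp, D_sh, Int.cast_zero, hz, sub_zero, if_pos ⟨Nat.zero_le _, by simp⟩] at h2
      exact h2
    choose mm k hk using h1
    cases nonempty_fintype H
    refine ⟨Finset.univ.sup mm, f (Finset.univ.sup mm) 0, fun i hi => eq_of_conj hH fun h => ?_⟩
    have h2 : mm h ≤ Finset.univ.sup mm := Finset.le_sup (Finset.mem_univ h)
    rw [hk h i (h2.trans hi), hk h _ h2]
  -- the recursion from the image of the shift
  obtain ⟨F, r, m, hF, hm⟩ := mem_E.mp (ψ (sg 1)).2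
  have hrec : ∀ i, m ≤ i → ∀ w : ℤ, 2 * |w| ≤ 2 ^ i →
      f i (w : ZMod (2 ^ i)) = F w * f i ((w - 1 : ℤ) : ZMod (2 ^ i)) := by
    intro i hi w hw
    have h1 := hm i hi w hw
    rw [hlamp, sg_lamp, sg_sh, mul_one, mul_inv_eq_iff_eq_mul] at h1
    rw [h1]
    push_cast
    rfl
  set M' := max M m with hM'
  have hval : ∀ n : ℕ, ∀ w : ℤ, |w| ≤ n → ∃ e' : H, ∀ i, M' ≤ i → 2 * |w| ≤ 2 ^ i →
      f i (w : ZMod (2 ^ i)) = e' := by
    intro n
    induction n with
    | zero =>
      intro w hw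
      have : w = 0 := abs_nonpos_iff.mp (by exact_mod_cast hw)
      subst this
      refine ⟨e, fun i hi _ => ?_⟩
      rw [Int.cast_zero]
      exact he i ((le_max_left _ _).trans hi)
    | succ n ih =>
      intro w hw
      push_cast at hw
      rcases lt_trichotomy w 0 with h | h | h
      · obtain ⟨e', he'⟩ := ih (w + 1) (by
          rw [abs_of_neg h] at hw
          rw [abs_of_nonpos (by omega)]; omega)
        refine ⟨(F (w + 1))⁻¹ * e', fun i hi hwi => ?_⟩
        have h1 : 2 * |w + 1| ≤ 2 ^ i := by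
          rw [abs_of_neg h] at hwi
          rw [abs_of_nonpos (by omega)]; omega
        have h2 := hrec i ((le_max_right _ _).trans hi) (w + 1) h1
        rw [he' i hi h1, add_sub_cancel_right] at h2
        rw [h2, inv_mul_cancel_left]
      · subst h
        refine ⟨e, fun i hi _ => ?_⟩
        rw [Int.cast_zero]
        exact he i ((le_max_left _ _).trans hi)
      · obtain ⟨e', he'⟩ := ih (w - 1) (by
          rw [abs_of_pos h] at hw
          rw [abs_of_nonneg (by omega)]; omega)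
        refine ⟨F w * e', fun i hi hwi => ?_⟩
        have h1 : 2 * |w - 1| ≤ 2 ^ i := by
          rw [abs_of_pos h] at hwi
          rw [abs_of_nonneg (by omega)]; omega
        have h2 := hrec i ((le_max_right _ _).trans hi) w hwi
        rw [he' i hi h1] at h2
        exact h2
  have hval' : ∀ w : ℤ, ∃ e' : H, ∀ i, M' ≤ i → 2 * |w| ≤ 2 ^ i →
      f i (w : ZMod (2 ^ i)) = e' := fun w => hval w.natAbs w (by rw [Int.natCast_natAbs])
  choose G hG using hval'
  have hGrec : ∀ w, G w = F w * G (w - 1) := by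
    intro w
    have h1 := lt_two_pow_self' (M' + 2 * w.natAbs + 2)
    rw [Nat.cast_add, Nat.cast_add, Nat.cast_mul, Int.natCast_natAbs] at h1
    have h1' : (0 : ℤ) ≤ (M' : ℤ) := Int.natCast_nonneg _
    have h2 : |w - 1| ≤ |w| + 1 := by
      have := abs_sub w 1
      simpa using this
    have h3 : 2 * |w| ≤ 2 ^ (M' + 2 * w.natAbs + 2) := by
      push_cast at h1; linarith
    have h4 : 2 * |w - 1| ≤ 2 ^ (M' + 2 * w.natAbs + 2) := by
      push_cast at h1; linarith
    have h5 : M' ≤ M' + 2 * w.natAbs + 2 := by omega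
    rw [← hG w _ h5 h3, ← hG (w - 1) _ h5 h4]
    exact hrec _ ((le_max_right _ _).trans h5) w h3
  have hup : ∀ n : ℕ, G (r + n) = G r := by
    intro n
    induction n with
    | zero => simp
    | succ n ih =>
      rw [hGrec, hF _ (by rw [abs_of_nonneg (by positivity)]; push_cast; omega), one_mul]
      rw [← ih]; congr 1; push_cast; ring
  have hdown : ∀ n : ℕ, G (-(r : ℤ) - 1 - n) = G (-(r : ℤ) - 1) := by
    intro n
    induction n with
    | zero => simp
    | succ n ih =>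
      have h1 := hGrec (-(r : ℤ) - 1 - n)
      rw [hF _ (by rw [abs_of_neg (by omega)]; omega), one_mul] at h1
      rw [← ih, h1]; congr 1; push_cast; ring
  have hends : G r = G (-(r : ℤ) - 1) := by
    set k := M' + r + 1 with hk
    have h1 := lt_two_pow_self' k
    push_cast at h1
    have h2 : G (2 ^ k) = G (-(2 ^ k)) := by
      have h3 : (((2 ^ k : ℤ)) : ZMod (2 ^ (k + 1))) = ((-(2 ^ k) : ℤ) : ZMod (2 ^ (k + 1))) := by
        have h4 : ((2 ^ k + 2 ^ k : ℤ) : ZMod (2 ^ (k + 1))) = 0 := by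
          have h5 : (2 ^ k + 2 ^ k : ℤ) = 2 ^ (k + 1) := by ring
          rw [h5]
          exact cast_two_pow (k + 1)
        rw [Int.cast_neg, eq_neg_iff_add_eq_zero, ← Int.cast_add]
        exact h4
      have h6 : (2 : ℤ) * |2 ^ k| ≤ 2 ^ (k + 1) := by
        rw [abs_of_nonneg (by positivity)]
        exact le_of_eq (by ring)
      have h7 : (2 : ℤ) * |-(2 ^ k)| ≤ 2 ^ (k + 1) := by
        rw [abs_neg]
        exact h6
      rw [← hG (2 ^ k) (k + 1) (by omega) h6, ← hG (-(2 ^ k)) (k + 1) (by omega) h7, h3]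
    have h5 := hup (2 ^ k - r : ℤ).toNat
    have h6 := hdown (2 ^ k - r - 1 : ℤ).toNat
    rw [Int.toNat_of_nonneg (by omega)] at h5 h6
    rw [show (r : ℤ) + (2 ^ k - r) = 2 ^ k by ring] at h5
    rw [show -(r : ℤ) - 1 - (2 ^ k - r - 1) = -(2 ^ k) by ring] at h6
    rw [← h5, ← h6, h2]
  set c := G r with hc
  have hGc : ∀ w : ℤ, (r : ℤ) < |w| → G w = c := by
    intro w hw
    rcases abs_cases w with h | h
    · have h1 := hup (w - r).toNat
      rw [Int.toNat_of_nonneg (by omega)] at h1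
      rw [show (r : ℤ) + (w - r) = w by ring] at h1
      exact h1
    · have h1 := hdown (-w - r - 1).toNat
      rw [Int.toNat_of_nonneg (by omega)] at h1
      rw [show -(r : ℤ) - 1 - (-w - r - 1) = w by ring, ← hends] at h1
      exact h1
  let b : E H := ⟨⟨fun i y => f i y * c⁻¹, 0⟩, ⟨fun w => G w * c⁻¹, r, M', fun w hw => by
    dsimp only
    rw [hGc w hw, mul_inv_cancel], fun i hi w hw => by
    dsimp only
    rw [hG w i hi hw]⟩⟩
  refine ⟨c, b, sg z, ?_⟩
  ext x : 1
  apply E.ext'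
  · intro i y
    rw [hlamp, hz]
    rw [MulAut.mul_apply, MulAut.mul_apply, MulAut.conj_apply, MulAut.conj_apply]
    have hb : ∀ y, b.1.lamp i y = f i y * c⁻¹ := fun y => rfl
    have hb0 : b.1.sh = 0 := rfl
    simp only [coe_mul_lamp, coe_inv_lamp, coe_mul_sh, coe_inv_sh, phi_lamp, phi_sh, hb, hb0,
      sg_lamp, sg_sh]
    simp [mul_assoc]
  · rw [hsh, MulAut.mul_apply, MulAut.mul_apply, MulAut.conj_apply, MulAut.conj_apply]
    simp only [coe_mul_sh, coe_inv_sh, phi_sh]
    ring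

end Q24.IAS
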