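import Mathlib
import Pool.Agent.Q24.IAS.Class

/-! Residual finiteness of the outer automorphism group, and the example. -/

namespace Q24.IAS

open scoped commutatorElement

/-- the induced map between outer automorphism groups -/
def outMap {G : Type} [Group G] (K : Subgroup G) [K.Characteristic] : Out G →* Out (G ⧸ K) :=
  QuotientGroup.map _ _ (indAut K) (by
    rintro _ ⟨g, rfl⟩
    refine ⟨(g : G ⧸ K), ?_⟩
    ext x
    induction x using QuotientGroup.induction_on with
    | H x => rfl)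

lemma outMap_mk {G : Type} [Group G] (K : Subgroup G) [K.Characteristic] (ψ : MulAut G) :
    outMap K (ψ : Out G) = ((indAut K ψ : MulAut (G ⧸ K)) : Out (G ⧸ K)) := rfl

lemma finite_mulAut (G : Type) [Group G] [Finite G] : Finite (MulAut G) :=
  Finite.of_injective (fun φ : MulAut G => (φ : G → G)) DFunLike.coe_injective

variable {H : Type} [Group H]

theorem resFin_out (hH : Good H) : ResiduallyFin (Out (E H)) := by
  have hfin := hH.fin
  have hchar := K_char hH
  have hfi := K_finiteIndex hH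
  let U : Subgroup (Out (E H)) := ⨅ m, (outMap (K H m)).ker
  have hUn : U.Normal := Subgroup.normal_iInf_normal fun m => MonoidHom.normal_ker _
  have hmem : ∀ ψ : MulAut (E H), (ψ : Out (E H)) ∈ U ↔
      ∀ m, ∃ a : E H, ∀ x : E H, (a * x * a⁻¹) * (ψ x)⁻¹ ∈ K H m := by
    intro ψ
    rw [Subgroup.mem_iInf]
    refine forall_congr' fun m => ?_
    rw [MonoidHom.mem_ker, outMap_mk, QuotientGroup.eq_one_iff, indAut_inner_iff]
  have hphi : ∀ c : H, ((phi c : MulAut (E H)) : Out (E H)) ∈ U := fun c =>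
    (hmem _).mpr fun m => phi_inner_mod hH c inferInstance inferInstance
  have hU : ∀ q ∈ U, ∃ c : H, ((phi c : MulAut (E H)) : Out (E H)) = q := by
    intro q hq
    obtain ⟨ψ, rfl⟩ := QuotientGroup.mk_surjective q
    obtain ⟨c, b, s, h⟩ := classify hH ((hmem ψ).mp hq)
    refine ⟨c, ?_⟩
    have h1 : ∀ b : E H, ((MulAut.conj b : MulAut (E H)) : Out (E H)) = 1 := fun b =>
      (QuotientGroup.eq_one_iff _).mpr ⟨b, rfl⟩
    rw [h, QuotientGroup.mk_mul, QuotientGroup.mk_mul, h1, h1, one_mul, mul_one]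
  have hinj : ∀ c d : H, ((phi c : MulAut (E H)) : Out (E H)) = (phi d : MulAut (E H)) → c = d := by
    intro c d h
    have h1 : (phi c)⁻¹ * phi d ∈ Inn (E H) := QuotientGroup.eq.mp h
    rw [← map_inv, ← map_mul] at h1
    exact inv_mul_eq_one.mp (phi_outer hH h1)
  intro q hq
  by_cases h : q ∈ U
  · have hUf : Finite U := Finite.of_surjective
      (fun c : H => (⟨(phi c : MulAut (E H)), hphi c⟩ : U)) fun u => by
        obtain ⟨c, hc⟩ := hU u.1 u.2
        exact ⟨c, Subtype.ext hc⟩
    refine ⟨MulAut U, inferInstance, finite_mulAut U, MulAut.conjNormal, fun hcon => ?_⟩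
    obtain ⟨c, rfl⟩ := hU q h
    have hc : c ≠ 1 := by
      rintro rfl
      exact hq (by rw [map_one]; rfl)
    refine hc (hH.cen c fun d => ?_)
    have h2 := congrArg (fun φ : MulAut U => ((φ ⟨(phi d : MulAut (E H)), hphi d⟩ : U) : Out (E H)))
      hcon
    simp only [MulAut.conjNormal_apply, MulAut.one_apply] at h2
    apply hinj
    rw [← h2]
    rw [map_mul, map_mul, map_inv]
    rfl
  · have h1 : ∃ m, outMap (K H m) q ≠ 1 := by
      by_contra hcon
      push Not at hcon
      exact h (Subgroup.mem_iInf.mpr fun m => hcon m)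
    obtain ⟨m, hm⟩ := h1
    have h2 : Finite (MulAut (E H ⧸ K H m)) := finite_mulAut _
    exact ⟨Out (E H ⧸ K H m), inferInstance, inferInstance, outMap (K H m), hm⟩

/-- the alternating group on five letters -/
abbrev A5 : Type := alternatingGroup (Fin 5)

lemma cent5 : ∀ σ : Equiv.Perm (Fin 5),
    σ * (Equiv.swap 0 1 * Equiv.swap 1 2) = (Equiv.swap 0 1 * Equiv.swap 1 2) * σ →
    σ * (Equiv.swap 2 3 * Equiv.swap 3 4) = (Equiv.swap 2 3 * Equiv.swap 3 4) * σ → σ = 1 := by
  decide +kernel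

lemma mem_alt (a b c d : Fin 5) (h1 : a ≠ b) (h2 : c ≠ d) :
    Equiv.swap a b * Equiv.swap c d ∈ alternatingGroup (Fin 5) := by
  rw [Equiv.Perm.mem_alternatingGroup, map_mul, Equiv.Perm.sign_swap h1, Equiv.Perm.sign_swap h2]
  rfl

lemma good5 : Good A5 where
  fin := inferInstance
  cen l h := by
    apply Subtype.ext
    apply cent5
    · have h1 := congrArg Subtype.val (h ⟨_, mem_alt 0 1 1 2 (by decide) (by decide)⟩)
      exact mul_inv_eq_iff_eq_mul.mp h1
    · have h1 := congrArg Subtype.val (h ⟨_, mem_alt 2 3 3 4 (by decide) (by decide)⟩)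
      exact mul_inv_eq_iff_eq_mul.mp h1
  nt := exists_ne 1
  perf := by
    rcases IsSimpleGroup.eq_bot_or_eq_top_of_normal (commutator A5) inferInstance with h | h
    · exfalso
      have h1 : ∀ a b : A5, a * b = b * a := by
        intro a b
        rw [← commutatorElement_eq_one_iff_mul_comm, ← Subgroup.mem_bot, ← h]
        exact Subgroup.commutator_mem_commutator (Subgroup.mem_top _) (Subgroup.mem_top _)
      have h2 := congrArg Subtype.val (h1 ⟨_, mem_alt 0 1 1 2 (by decide) (by decide)⟩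
        ⟨_, mem_alt 2 3 3 4 (by decide) (by decide)⟩)
      revert h2
      change ¬ ((Equiv.swap 0 1 * Equiv.swap 1 2) * (Equiv.swap 2 3 * Equiv.swap 3 4) =
        (Equiv.swap 2 3 * Equiv.swap 3 4) * (Equiv.swap 0 1 * Equiv.swap (1 : Fin 5) 2))
      decide +kernel
    · exact h
  simple N hN h := (IsSimpleGroup.eq_bot_or_eq_top_of_normal N hN).resolve_left h

/-- conjugation by an odd permutation -/
noncomputable def theta5 : MulAut A5 :=
  MulAut.conjNormal (Equiv.swap (0 : Fin 5) 1)

lemma theta5_outer (c : A5) : theta5 ≠ MulAut.conj c := by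
  intro h
  have h1 : ∀ k : A5, Equiv.swap (0 : Fin 5) 1 * k.1 * (Equiv.swap (0 : Fin 5) 1)⁻¹ =
      c.1 * k.1 * c.1⁻¹ := fun k => by
    have := congrArg (fun φ : MulAut A5 => ((φ k : A5) : Equiv.Perm (Fin 5))) h
    simpa [theta5] using this
  have h2 : ∀ k : A5, (c.1⁻¹ * Equiv.swap (0 : Fin 5) 1) * k.1 =
      k.1 * (c.1⁻¹ * Equiv.swap (0 : Fin 5) 1) := by
    intro k
    have h3 := h1 k
    rw [mul_inv_eq_iff_eq_mul] at h3
    rw [mul_assoc, h3]
    group
  have h3 := cent5 _ (h2 ⟨_, mem_alt 0 1 1 2 (by decide) (by decide)⟩)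
    (h2 ⟨_, mem_alt 2 3 3 4 (by decide) (by decide)⟩)
  rw [inv_mul_eq_one] at h3
  have h4 := c.2
  rw [h3, Equiv.Perm.mem_alternatingGroup, Equiv.Perm.sign_swap (by decide)] at h4
  exact absurd h4 (by decide)

theorem main : ∃ (G : Type) (_ : Group G), Group.FG G ∧ ResiduallyFin G ∧ Infinite (Out G) ∧
    ResiduallyFin (Out G) ∧ ¬ InnerAutSep G :=
  ⟨E A5, inferInstance, fg_E good5.perf, resFin_E good5, infinite_out good5 theta5_outer, resFin_out good5,
    not_ias good5⟩

end Q24.IAS
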